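import Pool.Agent.H15.G1.W.Phir
import Pool.Agent.H48.PW.WtA

/-!
# Module W/Bas: elementary properties of `PhR`

As `PhS_PGW`, `PhS_abs` (H48/PW/WtA) and `VPhS_le_len` (H67/NZ/GainZ): `|v-w| ≤ ⟨v⟩+⟨w⟩`, `min(1,⟨w⟩/⟨v⟩)^4 |v-w|^a ≤ 2⟨w⟩^a`, `0 ≤ V_e phiR(V) ≤ |V|^(1+a)`; `V_PhS_PhR`: for `|v-w| ≥ r` both sides agree, for `|v-w| < r` the left side is at most `|V|^(1+a) ≤ r^(1+a)`.
-/

set_option autoImplicit false

open MeasureTheory Set Filter Topology Pool.Agent.H25.Kin Pool.Agent.H82.BK Pool.Agent.H82.CM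
open Pool.Agent.H48.PL Pool.Agent.H48.PI Pool.Agent.H48.PW

namespace Pool.Agent.H15.G1

variable {d : ℕ} {s a m r : ℝ}

private lemma wbas_V (v w : Vec d) : len (v - w) ≤ jb v + jb w := by
  linarith [len_sub_le v w, len_le_jb v, len_le_jb w]

private lemma wbas_two {r : ℝ} {n : ℕ} (hr : r ≤ n) : (2 : ℝ) ^ r ≤ 2 ^ n := by
  have := Real.rpow_le_rpow_of_exponent_le (by norm_num : (1 : ℝ) ≤ 2) hr
  rwa [Real.rpow_natCast] at this

private lemma wbas_mu (v w : Vec d) : 0 ≤ min 1 (jb w / jb v) :=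
  le_min zero_le_one (div_nonneg (jb_pos w).le (jb_pos v).le)

private lemma wbas_mu_rpow {r : ℝ} (hr0 : 0 ≤ r) (hr : r ≤ 4) (v w : Vec d) :
    min 1 (jb w / jb v) ^ 4 * len (v - w) ^ r ≤ 2 ^ r * jb w ^ r := by
  have hv := jb_pos v
  have hw := jb_pos w
  have hV := wbas_V v w
  have hl := len_nonneg (v - w)
  have hmu0 := wbas_mu v w
  rcases le_total (jb v) (jb w) with h | h
  · have h1 : min 1 (jb w / jb v) ^ 4 ≤ 1 := pow_le_one₀ hmu0 (min_le_left _ _)
    have h2 : len (v - w) ^ r ≤ 2 ^ r * jb w ^ r := by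
      rw [← Real.mul_rpow (by norm_num) hw.le]
      exact Real.rpow_le_rpow hl (by linarith) hr0
    calc min 1 (jb w / jb v) ^ 4 * len (v - w) ^ r ≤ 1 * (2 ^ r * jb w ^ r) :=
          mul_le_mul h1 h2 (Real.rpow_nonneg hl _) zero_le_one
      _ = 2 ^ r * jb w ^ r := one_mul _
  · have hle : jb w / jb v ≤ 1 := (div_le_one hv).2 h
    have hq0 : 0 < jb w / jb v := div_pos hw hv
    rw [min_eq_right hle]
    have h1 : (jb w / jb v) ^ 4 ≤ (jb w / jb v) ^ r := by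
      have h4 : (jb w / jb v) ^ 4 = (jb w / jb v) ^ (4 : ℝ) := by
        rw [← Real.rpow_natCast]; norm_num
      rw [h4]
      exact Real.rpow_le_rpow_of_exponent_ge hq0 hle hr
    have h2 : len (v - w) ^ r ≤ 2 ^ r * jb v ^ r := by
      rw [← Real.mul_rpow (by norm_num) hv.le]
      exact Real.rpow_le_rpow hl (by linarith) hr0
    have h3 : (jb w / jb v) ^ r * jb v ^ r = jb w ^ r := by
      rw [← Real.mul_rpow hq0.le hv.le, div_mul_cancel₀ _ hv.ne']
    calc (jb w / jb v) ^ 4 * len (v - w) ^ r ≤ (jb w / jb v) ^ r * (2 ^ r * jb v ^ r) :=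
          mul_le_mul h1 h2 (Real.rpow_nonneg hl _) (Real.rpow_nonneg hq0.le _)
      _ = 2 ^ r * ((jb w / jb v) ^ r * jb v ^ r) := by ring
      _ = 2 ^ r * jb w ^ r := by rw [h3]

private lemma wbas_growth (ha : 0 ≤ a) {Φ : Vec d → Vec d → ℝ}
    (h : ∀ v w, |Φ v w| ≤ min 1 (jb w / jb v) ^ 4 * len (v - w) ^ a) :
    ∃ (N : ℕ) (C : ℝ), 0 ≤ C ∧ ∀ v w, |Φ v w| ≤ C * ((1 + ‖v‖) ^ N * (1 + ‖w‖) ^ N) := by
  obtain ⟨N, hN⟩ := exists_nat_ge a
  refine ⟨N, (2 * ((d : ℝ) + 1) ^ 2) ^ N, by positivity, fun v w => (h v w).trans ?_⟩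
  have hv := one_le_jb v
  have hw := one_le_jb w
  have h1 : min 1 (jb w / jb v) ^ 4 ≤ 1 := pow_le_one₀ (wbas_mu v w) (min_le_left _ _)
  have hV := wbas_V v w
  have h2 : jb v + jb w ≤ 2 * (jb v * jb w) := by nlinarith
  have h3 := jb_le_w v
  have h4 := jb_le_w w
  have h5 : jb v * jb w ≤ (((d : ℝ) + 1) * (1 + ‖v‖)) * (((d : ℝ) + 1) * (1 + ‖w‖)) :=
    mul_le_mul h3 h4 (by linarith) (by positivity)
  have h6 : 2 * (jb v * jb w) ≤ (2 * ((d : ℝ) + 1) ^ 2) * ((1 + ‖v‖) * (1 + ‖w‖)) := by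
    calc 2 * (jb v * jb w) ≤ 2 * ((((d : ℝ) + 1) * (1 + ‖v‖)) * (((d : ℝ) + 1) * (1 + ‖w‖))) := by
          linarith
      _ = (2 * ((d : ℝ) + 1) ^ 2) * ((1 + ‖v‖) * (1 + ‖w‖)) := by ring
  have h7 : 1 ≤ 2 * (jb v * jb w) := by nlinarith
  calc min 1 (jb w / jb v) ^ 4 * len (v - w) ^ a ≤ 1 * (2 * (jb v * jb w)) ^ a :=
        mul_le_mul h1 (Real.rpow_le_rpow (len_nonneg _) (hV.trans h2) ha)
          (Real.rpow_nonneg (len_nonneg _) _) zero_le_one
    _ = (2 * (jb v * jb w)) ^ a := one_mul _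
    _ ≤ (2 * (jb v * jb w)) ^ (N : ℝ) := Real.rpow_le_rpow_of_exponent_le h7 hN
    _ = (2 * (jb v * jb w)) ^ N := Real.rpow_natCast _ _
    _ ≤ ((2 * ((d : ℝ) + 1) ^ 2) * ((1 + ‖v‖) * (1 + ‖w‖))) ^ N :=
        pow_le_pow_left₀ (by linarith) h6 N
    _ = (2 * ((d : ℝ) + 1) ^ 2) ^ N * ((1 + ‖v‖) ^ N * (1 + ‖w‖) ^ N) := by
        rw [mul_pow, mul_pow (1 + ‖v‖)]

private lemma wbas_R (ha : 0 ≤ a) (hr : 0 < r) (e : Fin d) (v w : Vec d) :
    |PhR e a r v w| ≤ min 1 (jb w / jb v) ^ 4 * len (v - w) ^ a := by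
  unfold PhR
  rw [abs_mul, abs_of_nonneg (pow_nonneg (wbas_mu v w) 4)]
  exact mul_le_mul_of_nonneg_left (phiR_abs ha hr e (v - w)) (pow_nonneg (wbas_mu v w) 4)

lemma PhR_PGW (ha : 0 ≤ a) (ha1 : a < 1) (hr : 0 < r) (e : Fin d) : PGW (PhR e a r) := by
  refine ⟨?_, wbas_growth ha (wbas_R ha hr e)⟩
  unfold PhR
  have h1 : Continuous fun p : Vec d × Vec d => p.1 - p.2 := continuous_fst.sub continuous_snd
  have h2 : Continuous fun p : Vec d × Vec d => min 1 (jb p.2 / jb p.1) ^ 4 :=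
    (continuous_const.min ((jb_cont.comp continuous_snd).div (jb_cont.comp continuous_fst)
      fun p => (jb_pos p.1).ne')).pow 4
  exact h2.mul ((phiR_cont ha ha1 hr e).comp h1)

lemma PhR_abs (ha : 0 ≤ a) (ha1 : a < 1) (hr : 0 < r) (e : Fin d) (v w : Vec d) :
    |PhR e a r v w| ≤ 2 * jb w ^ a := by
  refine (wbas_R ha hr e v w).trans ((wbas_mu_rpow ha (by linarith) v w).trans ?_)
  refine mul_le_mul_of_nonneg_right ?_ (Real.rpow_nonneg (jb_pos w).le _)
  have := wbas_two (r := a) (n := 1) (by push_cast; linarith)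
  simpa using this

private lemma wbas_len (ha : 0 ≤ a) (y : Vec d) : len y * len y ^ a = len y ^ (1 + a) := by
  rcases (len_nonneg y).eq_or_lt with h | h
  · rw [← h, Real.zero_rpow (by linarith : (1 + a) ≠ 0), zero_mul]
  · rw [Real.rpow_add h, Real.rpow_one]

private lemma wbas_nonneg (e : Fin d) (v w : Vec d) (hr : 0 < r) :
    0 ≤ (v e - w e) * PhR e a r v w := by
  have h1 := mul_phi_nonneg e a (v - w)
  rw [Pi.sub_apply] at h1
  have h3 : 0 ≤ min 1 (len (v - w) / r) := le_min zero_le_one (div_nonneg (len_nonneg _) hr.le)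
  have h2 := mul_nonneg (mul_nonneg (pow_nonneg (wbas_mu v w) 4) h3) h1
  unfold PhR phiR
  have e1 : (v e - w e) * (min 1 (jb w / jb v) ^ 4 * (min 1 (len (v - w) / r) * phi e a (v - w))) =
      min 1 (jb w / jb v) ^ 4 * min 1 (len (v - w) / r) * ((v e - w e) * phi e a (v - w)) := by ring
  rw [e1]
  exact h2

private lemma wbas_le (ha : 0 ≤ a) (hr : 0 < r) (e : Fin d) (v w : Vec d) :
    (v e - w e) * PhR e a r v w ≤ min 1 (jb w / jb v) ^ 4 * len (v - w) ^ (1 + a) := by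
  have h1 : |v e - w e| ≤ len (v - w) := by
    have := abs_coord_le (v - w) e
    rwa [Pi.sub_apply] at this
  calc (v e - w e) * PhR e a r v w ≤ |(v e - w e) * PhR e a r v w| := le_abs_self _
    _ = |v e - w e| * |PhR e a r v w| := abs_mul _ _
    _ ≤ len (v - w) * (min 1 (jb w / jb v) ^ 4 * len (v - w) ^ a) :=
        mul_le_mul h1 (wbas_R ha hr e v w) (abs_nonneg _) (len_nonneg _)
    _ = min 1 (jb w / jb v) ^ 4 * (len (v - w) * len (v - w) ^ a) := by ring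
    _ = min 1 (jb w / jb v) ^ 4 * len (v - w) ^ (1 + a) := by rw [wbas_len ha]

lemma V_PhR (ha : 0 ≤ a) (ha1 : a < 1) (hr : 0 < r) (e : Fin d) (v w : Vec d) :
    0 ≤ (v e - w e) * PhR e a r v w ∧ (v e - w e) * PhR e a r v w ≤ 4 * jb w ^ (1 + a) := by
  refine ⟨wbas_nonneg e v w hr, (wbas_le ha hr e v w).trans
    ((wbas_mu_rpow (by linarith) (by linarith) v w).trans ?_)⟩
  refine mul_le_mul_of_nonneg_right ?_ (Real.rpow_nonneg (jb_pos w).le _)
  have := wbas_two (r := 1 + a) (n := 2) (by push_cast; linarith)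
  linarith

/-- the weight `PhS` is larger only for `|v-w| < r` -/
lemma V_PhS_PhR (ha : 0 ≤ a) (ha1 : a < 1) (hr : 0 < r) (e : Fin d) (v w : Vec d) :
    (v e - w e) * PhS e a v w ≤ (v e - w e) * PhR e a r v w +
      (if len (v - w) < r then r ^ (1 + a) else 0) := by
  by_cases h : len (v - w) < r
  · rw [if_pos h]
    have h0 := wbas_nonneg (a := a) e v w hr
    have h1 : |v e - w e| ≤ len (v - w) := by
      have := abs_coord_le (v - w) e
      rwa [Pi.sub_apply] at this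
    have hl := len_nonneg (v - w)
    have h2 : (v e - w e) * phi e a (v - w) ≤ len (v - w) ^ (1 + a) := by
      have e1 : (v e - w e) * phi e a (v - w) = (v e - w e) ^ 2 * len (v - w) ^ (a - 1) := by
        unfold phi
        rw [Pi.sub_apply]
        ring
      rw [e1]
      rcases hl.eq_or_lt with h3 | h3
      · have h4 : v e - w e = 0 := by
          rw [← h3] at h1
          exact abs_nonpos_iff.1 h1
        rw [h4]
        simpa using Real.rpow_nonneg hl (1 + a)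
      · have e2 : len (v - w) ^ (1 + a) = len (v - w) ^ 2 * len (v - w) ^ (a - 1) := by
          rw [← Real.rpow_two, ← Real.rpow_add h3]
          congr 1; ring
        rw [e2]
        refine mul_le_mul_of_nonneg_right ?_ (Real.rpow_nonneg hl _)
        rw [← sq_abs (v e - w e)]
        exact pow_le_pow_left₀ (abs_nonneg _) h1 2
    have h3 : min 1 (jb w / jb v) ^ 4 ≤ 1 := pow_le_one₀ (wbas_mu v w) (min_le_left _ _)
    have h4 := mul_phi_nonneg e a (v - w)
    rw [Pi.sub_apply] at h4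
    have h5 : (v e - w e) * PhS e a v w ≤ r ^ (1 + a) := by
      calc (v e - w e) * PhS e a v w = min 1 (jb w / jb v) ^ 4 * ((v e - w e) * phi e a (v - w)) := by
            unfold PhS; ring
        _ ≤ 1 * ((v e - w e) * phi e a (v - w)) := mul_le_mul_of_nonneg_right h3 h4
        _ ≤ len (v - w) ^ (1 + a) := by rw [one_mul]; exact h2
        _ ≤ r ^ (1 + a) := Real.rpow_le_rpow hl h.le (by linarith)
    linarith
  · rw [if_neg h, add_zero]
    have h1 : min 1 (len (v - w) / r) = 1 :=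
      min_eq_left ((one_le_div hr).2 (not_lt.1 h))
    unfold PhR phiR PhS
    rw [h1, one_mul]

end Pool.Agent.H15.G1
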