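import Pool.Agent.H15.G1.W.Bas

/-!
# Module W/Cusp: `PhR(v,·)` is a cusp test function

`V = ⟨v⟩`, `R = max ⟨w⟩ ⟨w'⟩`, `Q = min(1,R/V)`, `Om(w) = min(1,⟨w⟩/V)^4`. With `w₁` the slower of the two velocities and `w₂` the other:
`|Om(w) φ(v-w) - Om(w') φ(v-w')| ≤ Om(w₂)|φ(v-w)-φ(v-w')| + |Om(w)-Om(w')| |φ(v-w₁)|`. `φ = phiR`. First term (`phiR_inc`): `≤ K Q^4 |w-w'| (|v-w|+|v-w'|)^(a-1)`, at most `K om |w-w'|^a` and `K om |w-w'| |v-w|^(a-1)`.
Second term: `≤ 8 Q^3 min(Q,|w-w'|/V) V^a`, at most `8 om |w-w'|^a` (as in H48/PW/WtB) and, as `1/V ≤ Q`, `Q^3 V^(a-1) |w-w'| = Q^(4-m) Q^(m-1) V^(a-1) |w-w'| ≤ om V^(a-m) |w-w'| ≤ om |w-w'|`.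
-/

set_option autoImplicit false

open MeasureTheory Set Filter Topology Pool.Agent.H25.Kin Pool.Agent.H82.BK Pool.Agent.H82.CM
open Pool.Agent.H48.PL Pool.Agent.H48.PI Pool.Agent.H48.PW

namespace Pool.Agent.H15.G1

variable {d : ℕ} {s a m r : ℝ}

private lemma wcu_q {V x y r g : ℝ} (ha : 0 ≤ a) (ha1 : a ≤ 1) (hV : 1 ≤ V) (hx : 0 < x) (hxy : x ≤ y)
    (hr : y - x ≤ r) (hg : |g| ≤ (V + x) ^ a) :
    |(min 1 (x / V) ^ 4 - min 1 (y / V) ^ 4) * g| ≤
      8 * (min 1 (y / V) ^ 3 * min (min 1 (y / V)) (r / V) * V ^ a) := by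
  have hV0 : 0 < V := by linarith
  have hy : 0 < y := by linarith
  have hr0 : 0 ≤ r := by linarith
  have hq' : 0 ≤ min 1 (y / V) := le_min zero_le_one (div_nonneg hy.le hV0.le)
  have hmin : 0 ≤ min (min 1 (y / V)) (r / V) := le_min hq' (div_nonneg hr0 hV0.le)
  have hVa : 0 ≤ V ^ a := Real.rpow_nonneg hV0.le _
  have hR : 0 ≤ 8 * (min 1 (y / V) ^ 3 * min (min 1 (y / V)) (r / V) * V ^ a) := by positivity
  rcases le_or_gt V x with h | h
  · have e1 : min 1 (x / V) = 1 := min_eq_left ((one_le_div hV0).2 h)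
    have e2 : min 1 (y / V) = 1 := min_eq_left ((one_le_div hV0).2 (h.trans hxy))
    rw [e2] at hR
    rw [e1, e2, sub_self, zero_mul, abs_zero]
    exact hR
  · have e1 : min 1 (x / V) = x / V := min_eq_right ((div_le_one hV0).2 h.le)
    have hq0 : 0 ≤ x / V := div_nonneg hx.le hV0.le
    have hqq : x / V ≤ min 1 (y / V) :=
      le_min ((div_le_one hV0).2 h.le) (div_le_div_of_nonneg_right hxy hV0.le)
    rw [e1]
    obtain ⟨q, hq⟩ : ∃ q, q = x / V := ⟨_, rfl⟩
    obtain ⟨p, hp⟩ : ∃ p, p = min 1 (y / V) := ⟨_, rfl⟩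
    rw [← hq] at hq0 hqq ⊢
    rw [← hp] at hq' hmin hR hqq ⊢
    have h1 : p - q ≤ min p (r / V) := by
      refine le_min (by linarith) ?_
      have h2 : p ≤ y / V := by rw [hp]; exact min_le_right _ _
      have h3 : y / V - x / V ≤ r / V := by
        rw [← sub_div]
        exact div_le_div_of_nonneg_right hr hV0.le
      rw [hq]
      linarith
    have h4 : p ^ 4 - q ^ 4 ≤ 4 * p ^ 3 * (p - q) := by
      have h5 : p ^ 4 - q ^ 4 = (p ^ 3 + p ^ 2 * q + p * q ^ 2 + q ^ 3) * (p - q) := by ring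
      rw [h5]
      refine mul_le_mul_of_nonneg_right ?_ (by linarith)
      have h6 : p ^ 2 * q ≤ p ^ 3 := by
        have : p ^ 3 = p ^ 2 * p := by ring
        rw [this]
        exact mul_le_mul_of_nonneg_left hqq (by positivity)
      have h7 : p * q ^ 2 ≤ p ^ 3 := by
        have : p ^ 3 = p * p ^ 2 := by ring
        rw [this]
        exact mul_le_mul_of_nonneg_left (pow_le_pow_left₀ hq0 hqq 2) hq'
      have h8 : q ^ 3 ≤ p ^ 3 := pow_le_pow_left₀ hq0 hqq 3
      linarith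
    have h9 : 0 ≤ p ^ 4 - q ^ 4 := sub_nonneg.2 (pow_le_pow_left₀ hq0 hqq 4)
    have h10 : |g| ≤ 2 * V ^ a := by
      refine hg.trans ?_
      calc (V + x) ^ a ≤ (2 * V) ^ a := Real.rpow_le_rpow (by linarith) (by linarith) ha
        _ = 2 ^ a * V ^ a := Real.mul_rpow (by norm_num) hV0.le
        _ ≤ 2 * V ^ a := by
          refine mul_le_mul_of_nonneg_right ?_ hVa
          calc (2 : ℝ) ^ a ≤ 2 ^ (1 : ℝ) := Real.rpow_le_rpow_of_exponent_le (by norm_num) ha1
            _ = 2 := Real.rpow_one _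
    rw [abs_mul, abs_sub_comm, abs_of_nonneg h9]
    calc (p ^ 4 - q ^ 4) * |g| ≤ (4 * p ^ 3 * min p (r / V)) * (2 * V ^ a) := by
          refine mul_le_mul (h4.trans ?_) h10 (abs_nonneg _) (by positivity)
          exact mul_le_mul_of_nonneg_left h1 (by positivity)
      _ = 8 * (p ^ 3 * min p (r / V) * V ^ a) := by ring

private lemma wcu_min {Q δ θ : ℝ} (hQ : 0 ≤ Q) (hδ : 0 ≤ δ) (h0 : 0 ≤ θ) (h1 : θ ≤ 1) :
    min Q δ ≤ Q ^ (1 - θ) * δ ^ θ := by
  rcases (le_min hQ hδ).eq_or_lt with h | h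
  · rw [← h]
    exact mul_nonneg (Real.rpow_nonneg hQ _) (Real.rpow_nonneg hδ _)
  · have e : min Q δ = min Q δ ^ (1 - θ) * min Q δ ^ θ := by
      rw [← Real.rpow_add h]
      simp
    calc min Q δ = min Q δ ^ (1 - θ) * min Q δ ^ θ := e
      _ ≤ Q ^ (1 - θ) * δ ^ θ :=
        mul_le_mul (Real.rpow_le_rpow h.le (min_le_left _ _) (by linarith))
          (Real.rpow_le_rpow h.le (min_le_right _ _) h0) (Real.rpow_nonneg h.le _)
          (Real.rpow_nonneg hQ _)

/-- exponent `a` -/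
private lemma wcu_T {Q V r : ℝ} (ha : 0 ≤ a) (ha1 : a ≤ 1) (ham : a ≤ m) (hQ : 0 < Q) (hQ1 : Q ≤ 1)
    (hV : 1 ≤ V) (hr : 0 ≤ r) :
    Q ^ 3 * min Q (r / V) * V ^ a ≤ Q ^ (4 - m) * r ^ a := by
  have hV0 : 0 < V := by linarith
  have h1 := wcu_min hQ.le (div_nonneg hr hV0.le) ha ha1
  have h2 : Q ^ 3 * Q ^ (1 - a) = Q ^ (4 - a) := by
    rw [← Real.rpow_natCast, ← Real.rpow_add hQ]
    congr 1
    push_cast
    ring
  have h3 : Q ^ (4 - a) ≤ Q ^ (4 - m) := Real.rpow_le_rpow_of_exponent_ge hQ hQ1 (by linarith)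
  have h4 : (r / V) ^ a * V ^ a = r ^ a := by
    rw [← Real.mul_rpow (div_nonneg hr hV0.le) hV0.le, div_mul_cancel₀ _ hV0.ne']
  calc Q ^ 3 * min Q (r / V) * V ^ a ≤ Q ^ 3 * (Q ^ (1 - a) * (r / V) ^ a) * V ^ a :=
        mul_le_mul_of_nonneg_right (mul_le_mul_of_nonneg_left h1 (by positivity))
          (Real.rpow_nonneg hV0.le _)
    _ = (Q ^ 3 * Q ^ (1 - a)) * ((r / V) ^ a * V ^ a) := by ring
    _ = Q ^ (4 - a) * r ^ a := by rw [h2, h4]
    _ ≤ Q ^ (4 - m) * r ^ a := mul_le_mul_of_nonneg_right h3 (Real.rpow_nonneg hr _)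

/-- exponent `1` -/
private lemma wcu_T1 {Q V r : ℝ} (ham : a ≤ m) (hm1 : m ≤ 1) (hQ : 0 < Q)
    (hV : 1 ≤ V) (hQV : 1 / V ≤ Q) (hr : 0 ≤ r) :
    Q ^ 3 * min Q (r / V) * V ^ a ≤ Q ^ (4 - m) * r := by
  have hV0 : 0 < V := by linarith
  have h1 : Q ^ 3 * min Q (r / V) * V ^ a ≤ Q ^ 3 * (r / V) * V ^ a :=
    mul_le_mul_of_nonneg_right (mul_le_mul_of_nonneg_left (min_le_right _ _) (by positivity))
      (Real.rpow_nonneg hV0.le _)
  have h2 : Q ^ 3 = Q ^ (4 - m) * Q ^ (m - 1) := by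
    rw [← Real.rpow_natCast, ← Real.rpow_add hQ]
    congr 1
    push_cast
    ring
  have h3 : Q ^ (m - 1) ≤ V ^ (1 - m) := by
    have h4 : Q ^ (m - 1) ≤ (1 / V) ^ (m - 1) :=
      Real.rpow_le_rpow_of_nonpos (by positivity) hQV (by linarith)
    have h5 : (1 / V) ^ (m - 1) = V ^ (1 - m) := by
      rw [one_div, Real.inv_rpow hV0.le, ← Real.rpow_neg hV0.le]
      congr 1
      ring
    linarith
  have h6 : V ^ (1 - m) * (V ^ a / V) = V ^ (a - m) := by
    have e : V ^ a / V = V ^ (a - 1) := by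
      rw [Real.rpow_sub hV0, Real.rpow_one]
    rw [e, ← Real.rpow_add hV0]
    congr 1
    ring
  have h7 : V ^ (a - m) ≤ 1 := Real.rpow_le_one_of_one_le_of_nonpos hV (by linarith)
  have h8 : Q ^ (m - 1) * (V ^ a / V) ≤ 1 := by
    refine (mul_le_mul_of_nonneg_right h3 ?_).trans (h6.le.trans h7)
    exact div_nonneg (Real.rpow_nonneg hV0.le _) hV0.le
  have h9 : 0 ≤ Q ^ (4 - m) * r := mul_nonneg (Real.rpow_nonneg hQ.le _) hr
  calc Q ^ 3 * min Q (r / V) * V ^ a ≤ Q ^ 3 * (r / V) * V ^ a := h1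
    _ = (Q ^ (4 - m) * r) * (Q ^ (m - 1) * (V ^ a / V)) := by rw [h2]; ring
    _ ≤ (Q ^ (4 - m) * r) * 1 := mul_le_mul_of_nonneg_left h8 h9
    _ = Q ^ (4 - m) * r := mul_one _

private lemma wcu_lin {S r : ℝ} (ha1 : a ≤ 1) (hr : 0 ≤ r) (hS : r ≤ S) :
    r * S ^ (a - 1) ≤ r ^ a := by
  rcases hr.eq_or_lt with h | h
  · rw [← h, zero_mul]
    exact Real.rpow_nonneg le_rfl _
  · calc r * S ^ (a - 1) ≤ r * r ^ (a - 1) :=
          mul_le_mul_of_nonneg_left (Real.rpow_le_rpow_of_nonpos h hS (by linarith)) hr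
      _ = r ^ (1 : ℝ) * r ^ (a - 1) := by rw [Real.rpow_one]
      _ = r ^ a := by rw [← Real.rpow_add h]; congr 1; ring

/-- the common estimate: `B` bounds the increment of `phiR`, `T` the one of the weight -/
private lemma wcu_key (ha : 0 ≤ a) (ha1 : a < 1) (hm0 : 0 ≤ m) {K r : ℝ} (hK : 0 ≤ K) (hr : 0 < r)
    (e : Fin d) (v w w' : Vec d)
    (hD : |phiR e a r (v - w) - phiR e a r (v - w')| ≤
      K * (len (w - w') * (len (v - w) + len (v - w')) ^ (a - 1)))
    {B T : ℝ} (hB : 0 ≤ B) (hBB : len (w - w') * (len (v - w) + len (v - w')) ^ (a - 1) ≤ B)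
    (hT : min 1 (max (jb w) (jb w') / jb v) ^ 3 *
      min (min 1 (max (jb w) (jb w') / jb v)) (len (w - w') / jb v) * jb v ^ a ≤
        min 1 (max (jb w) (jb w') / jb v) ^ (4 - m) * T) :
    |PhR e a r v w - PhR e a r v w'| ≤ om m (jb v) (max (jb w) (jb w')) * (K * B + 8 * T) := by
  have hV := one_le_jb v
  have hV0 := jb_pos v
  have hl0 := len_nonneg (w - w')
  have hx := jb_pos w
  have hy := jb_pos w'
  have hl := jb_lip w w'
  rw [abs_le] at hl
  have hDD : |phiR e a r (v - w) - phiR e a r (v - w')| ≤ K * B :=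
    hD.trans (mul_le_mul_of_nonneg_left hBB hK)
  have hM : 0 < max (jb w) (jb w') := lt_max_of_lt_left hx
  obtain ⟨Q, hQ⟩ : ∃ Q, Q = min 1 (max (jb w) (jb w') / jb v) := ⟨_, rfl⟩
  have hQ0 : 0 < Q := by rw [hQ]; exact lt_min one_pos (div_pos hM hV0)
  have hQ1 : Q ≤ 1 := by rw [hQ]; exact min_le_left _ _
  have hom : om m (jb v) (max (jb w) (jb w')) = Q ^ (4 - m) := by rw [hQ]; rfl
  rw [← hQ] at hT
  have hQ4 : Q ^ 4 ≤ Q ^ (4 - m) := by
    have e : Q ^ 4 = Q ^ (4 : ℝ) := by rw [← Real.rpow_natCast]; norm_num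
    rw [e]
    exact Real.rpow_le_rpow_of_exponent_ge hQ0 hQ1 (by linarith)
  have hfa : ∀ z : Vec d, |phiR e a r (v - z)| ≤ (jb v + jb z) ^ a := fun z =>
    (phiR_abs ha hr e (v - z)).trans (Real.rpow_le_rpow (len_nonneg _)
      ((len_sub_le v z).trans (add_le_add (len_le_jb v) (len_le_jb z))) ha)
  have hmain : |PhR e a r v w - PhR e a r v w'| ≤
      Q ^ 4 * (K * B) + 8 * (Q ^ 3 * min Q (len (w - w') / jb v) * jb v ^ a) := by
    unfold PhR
    rcases le_total (jb w) (jb w') with h | h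
    · have hQe : min 1 (jb w' / jb v) = Q := by rw [hQ, max_eq_right h]
      have e1 : min 1 (jb w / jb v) ^ 4 * phiR e a r (v - w) -
          min 1 (jb w' / jb v) ^ 4 * phiR e a r (v - w') =
          min 1 (jb w' / jb v) ^ 4 * (phiR e a r (v - w) - phiR e a r (v - w')) +
            (min 1 (jb w / jb v) ^ 4 - min 1 (jb w' / jb v) ^ 4) * phiR e a r (v - w) := by ring
      have e2 := wcu_q (a := a) (g := phiR e a r (v - w)) ha ha1.le hV hx h (r := len (w - w'))
        (by linarith) (hfa w)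
      rw [e1]
      refine (abs_add_le _ _).trans (add_le_add ?_ ?_)
      · rw [hQe, abs_mul, abs_of_nonneg (by positivity : (0 : ℝ) ≤ Q ^ 4)]
        exact mul_le_mul_of_nonneg_left hDD (by positivity)
      · rw [hQe] at e2 ⊢
        exact e2
    · have hQe : min 1 (jb w / jb v) = Q := by rw [hQ, max_eq_left h]
      have e1 : min 1 (jb w / jb v) ^ 4 * phiR e a r (v - w) -
          min 1 (jb w' / jb v) ^ 4 * phiR e a r (v - w') =
          min 1 (jb w / jb v) ^ 4 * (phiR e a r (v - w) - phiR e a r (v - w')) -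
            (min 1 (jb w' / jb v) ^ 4 - min 1 (jb w / jb v) ^ 4) * phiR e a r (v - w') := by ring
      have e2 := wcu_q (a := a) (g := phiR e a r (v - w')) ha ha1.le hV hy h (r := len (w - w'))
        (by linarith) (hfa w')
      rw [e1]
      refine (abs_sub _ _).trans (add_le_add ?_ ?_)
      · rw [hQe, abs_mul, abs_of_nonneg (by positivity : (0 : ℝ) ≤ Q ^ 4)]
        exact mul_le_mul_of_nonneg_left hDD (by positivity)
      · rw [hQe] at e2 ⊢
        exact e2
  rw [hom]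
  calc _ ≤ Q ^ 4 * (K * B) + 8 * (Q ^ 3 * min Q (len (w - w') / jb v) * jb v ^ a) := hmain
    _ ≤ Q ^ (4 - m) * (K * B) + 8 * (Q ^ (4 - m) * T) :=
      add_le_add (mul_le_mul_of_nonneg_right hQ4 (mul_nonneg hK hB))
        (mul_le_mul_of_nonneg_left hT (by norm_num))
    _ = Q ^ (4 - m) * (K * B + 8 * T) := by ring

theorem PhR_cusp (E : GE s a m) : ∃ A : ℝ, 0 ≤ A ∧ ∀ r : ℝ, 0 < r → r ≤ 1 →
    ∀ (e : Fin d) (v : Vec d), CuspT 1 a m v (jb v) A fun w => PhR e a r v w := by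
  have hs := E.hs
  have ha := E.ha
  have ham := E.ham
  have hm := E.hm
  have hm1 := E.hm1
  have hm0 : 0 < m := by linarith
  have hm1' : m ≤ 1 := by linarith
  have ha1 : a < 1 := by linarith
  obtain ⟨K, hK, hinc⟩ := phiR_inc (d := d) ha ha1
  refine ⟨K + 8, by linarith, fun r hr _ e v => ?_⟩
  have hV := one_le_jb v
  have hV0 := jb_pos v
  have hD : ∀ w w' : Vec d, |phiR e a r (v - w) - phiR e a r (v - w')| ≤
      K * (len (w - w') * (len (v - w) + len (v - w')) ^ (a - 1)) := by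
    intro w w'
    have h := hinc r hr e (v - w) (v - w')
    have e1 : v - w - (v - w') = w' - w := by abel
    rw [e1, len_comm w' w] at h
    exact h
  have hS : ∀ w w' : Vec d, len (w - w') ≤ len (v - w) + len (v - w') := by
    intro w w'
    have h := len_sub_le (v - w') (v - w)
    have e1 : v - w' - (v - w) = w - w' := by abel
    rw [e1] at h
    linarith
  have hQpos : ∀ w w' : Vec d, 0 < min 1 (max (jb w) (jb w') / jb v) := fun w w' =>
    lt_min one_pos (div_pos (lt_max_of_lt_left (jb_pos w)) hV0)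
  have hQV : ∀ w w' : Vec d, 1 / jb v ≤ min 1 (max (jb w) (jb w') / jb v) := fun w w' =>
    le_min ((div_le_one hV0).2 hV)
      (div_le_div_of_nonneg_right ((one_le_jb w).trans (le_max_left _ _)) hV0.le)
  have homn : ∀ w w' : Vec d, 0 ≤ om m (jb v) (max (jb w) (jb w')) := fun w w' =>
    om_nonneg hV0 (le_max_of_le_left (jb_pos w).le)
  refine ⟨?_, ?_, ?_⟩
  · have h1 : Continuous fun w : Vec d => v - w := continuous_const.sub continuous_id
    have h2 : Continuous fun w : Vec d => min 1 (jb w / jb v) ^ 4 :=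
      (continuous_const.min (jb_cont.div_const _)).pow 4
    exact h2.mul ((phiR_cont ha ha1 hr e).comp h1)
  · intro w w'
    have hl := len_nonneg (w - w')
    have h := wcu_key (m := m) ha ha1 hm0.le hK hr e v w w' (hD w w')
      (B := len (w - w') ^ a) (T := len (w - w') ^ a) (Real.rpow_nonneg hl _)
      (wcu_lin ha1.le hl (hS w w'))
      (wcu_T ha ha1.le ham (hQpos w w') (min_le_left _ _) hV hl)
    refine h.trans (le_of_eq ?_)
    ring
  · intro w w' hwv
    have hl := len_nonneg (w - w')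
    have hρ : 0 < len (v - w) := len_pos (sub_ne_zero.2 (Ne.symm hwv))
    have hρe : len (w - v) = len (v - w) := len_comm w v
    have hρ1 : 0 ≤ len (v - w) ^ (a - 1) := Real.rpow_nonneg hρ.le _
    have hB : len (w - w') * (len (v - w) + len (v - w')) ^ (a - 1) ≤
        len (w - w') * len (v - w) ^ (a - 1) :=
      mul_le_mul_of_nonneg_left (Real.rpow_le_rpow_of_nonpos hρ
        (by linarith [len_nonneg (v - w')]) (by linarith)) hl
    have h := wcu_key (m := m) ha ha1 hm0.le hK hr e v w w' (hD w w')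
      (T := len (w - w')) (mul_nonneg hl hρ1) hB
      (wcu_T1 ham hm1' (hQpos w w') hV (hQV w w') hl)
    refine h.trans ?_
    rw [hρe, Real.rpow_one]
    have h3 : K * (len (w - w') * len (v - w) ^ (a - 1)) + 8 * len (w - w') ≤
        (K + 8) * (len (w - w') * (1 + len (v - w) ^ (a - 1))) := by
      have h4 : 0 ≤ K * len (w - w') := mul_nonneg hK hl
      have h5 : 0 ≤ len (w - w') * len (v - w) ^ (a - 1) := mul_nonneg hl hρ1
      nlinarith
    calc om m (jb v) (max (jb w) (jb w')) *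
          (K * (len (w - w') * len (v - w) ^ (a - 1)) + 8 * len (w - w'))
        ≤ om m (jb v) (max (jb w) (jb w')) *
          ((K + 8) * (len (w - w') * (1 + len (v - w) ^ (a - 1)))) :=
          mul_le_mul_of_nonneg_left h3 (homn w w')
      _ = (K + 8) * (om m (jb v) (max (jb w) (jb w')) *
          (len (w - w') * (1 + len (v - w) ^ (a - 1)))) := by ring

end Pool.Agent.H15.G1
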