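import Pool.Agent.H15.G1.W.Bas
import Pool.Agent.H48.PI.BetA

/-!
# Module W/Cut: `chi_R PhR(v,·)`

`|PhR| ≤ 2⟨w⟩^a ≤ 2(2R)^a` on the support `⟨w⟩ ≤ 2R` of `chi R`, `|chi w - chi w'| ≤ |w-w'|/R ≤ |w-w'|`. Product rule with the `chi` difference multiplying the value at a point of the support; increments of `PhR` as in module Cusp (prove again what is needed, with `om ≤ 1`:
`|PhR(v,w)-PhR(v,w')| ≤ K(R) |w-w'|(1+|w-v|^(a-1))` for `⟨w⟩,⟨w'⟩ ≤ 2R`).
-/

set_option autoImplicit false

open MeasureTheory Set Filter Topology Pool.Agent.H25.Kin Pool.Agent.H82.BK Pool.Agent.H82.CM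
open Pool.Agent.H48.PL Pool.Agent.H48.PI Pool.Agent.H48.PW

namespace Pool.Agent.H15.G1

variable {d : ℕ} {s a m r : ℝ}

private lemma wcut_comm (u v : Vec d) : len (u - v) = len (v - u) := len_comm u v

private lemma wcut_pow4 {x y : ℝ} (hx : 0 ≤ x) (hx1 : x ≤ 1) (hy : 0 ≤ y) (hy1 : y ≤ 1) :
    |x ^ 4 - y ^ 4| ≤ 4 * |x - y| := by
  have h : x ^ 4 - y ^ 4 = (x ^ 3 + x ^ 2 * y + x * y ^ 2 + y ^ 3) * (x - y) := by ring
  rw [h, abs_mul]
  refine mul_le_mul_of_nonneg_right ?_ (abs_nonneg _)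
  rw [abs_of_nonneg (by positivity)]
  have h3 : x ^ 3 ≤ 1 := pow_le_one₀ hx hx1
  have h3' : y ^ 3 ≤ 1 := pow_le_one₀ hy hy1
  have h2 : x ^ 2 ≤ 1 := pow_le_one₀ hx hx1
  have h2' : y ^ 2 ≤ 1 := pow_le_one₀ hy hy1
  have h4 : x ^ 2 * y ≤ 1 := mul_le_one₀ h2 hy hy1
  have h5 : x * y ^ 2 ≤ 1 := mul_le_one₀ hx1 (by positivity) h2'
  linarith

private lemma wcut_Om (v w w' : Vec d) :
    |min 1 (jb w / jb v) ^ 4 - min 1 (jb w' / jb v) ^ 4| ≤ 4 * (len (w - w') / jb v) := by
  have hv := jb_pos v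
  have h0 : ∀ u : Vec d, 0 ≤ min 1 (jb u / jb v) := fun u =>
    le_min zero_le_one (div_nonneg (jb_pos u).le hv.le)
  refine (wcut_pow4 (h0 w) (min_le_left _ _) (h0 w') (min_le_left _ _)).trans ?_
  refine mul_le_mul_of_nonneg_left ?_ (by norm_num)
  refine (abs_min_sub_min_le_max 1 (jb w / jb v) 1 (jb w' / jb v)).trans ?_
  rw [sub_self, abs_zero, max_eq_right (abs_nonneg _), ← sub_div, abs_div, abs_of_pos hv]
  exact div_le_div_of_nonneg_right (jb_lip w w') hv.le

private lemma wcut_inc (ha : 0 ≤ a) (ha1 : a < 1) {R : ℝ} (hR : 1 ≤ R) : ∃ K : ℝ, 0 ≤ K ∧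
    ∀ r : ℝ, 0 < r → ∀ (e : Fin d) (v w w' : Vec d), w ≠ v → jb w' ≤ 2 * R →
      |PhR e a r v w - PhR e a r v w'| ≤ K * (len (w - w') * (1 + len (w - v) ^ (a - 1))) := by
  obtain ⟨K, hK, hinc⟩ := phiR_inc (d := d) ha ha1
  refine ⟨K + 4 * (1 + 2 * R), by positivity, fun r hr e v w w' hwv hw' => ?_⟩
  have hv := jb_pos v
  have hv1 := one_le_jb v
  have hl := len_nonneg (w - w')
  have hp : 0 < len (w - v) := by
    rcases (len_nonneg (w - v)).eq_or_lt with h | h
    · exfalso
      apply hwv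
      funext i
      have h1 := abs_coord_le (w - v) i
      rw [← h, Pi.sub_apply] at h1
      have h2 := abs_nonpos_iff.1 h1
      linarith
    · exact h
  have hq : 0 ≤ len (w - v) ^ (a - 1) := Real.rpow_nonneg hp.le _
  have hOm0 : 0 ≤ min 1 (jb w / jb v) := le_min zero_le_one (div_nonneg (jb_pos w).le hv.le)
  have hOm1 : min 1 (jb w / jb v) ^ 4 ≤ 1 := pow_le_one₀ hOm0 (min_le_left _ _)
  -- second term
  have hA : |min 1 (jb w / jb v) ^ 4 * (phiR e a r (v - w) - phiR e a r (v - w'))| ≤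
      K * (len (w - w') * len (w - v) ^ (a - 1)) := by
    rw [abs_mul, abs_of_nonneg (pow_nonneg hOm0 4)]
    have h1 := hinc r hr e (v - w) (v - w')
    have h2 : v - w - (v - w') = w' - w := by abel
    rw [h2, wcut_comm w' w, wcut_comm v w] at h1
    have h3 : (len (w - v) + len (v - w')) ^ (a - 1) ≤ len (w - v) ^ (a - 1) :=
      Real.rpow_le_rpow_of_nonpos hp (by linarith [len_nonneg (v - w')]) (by linarith)
    calc min 1 (jb w / jb v) ^ 4 * |phiR e a r (v - w) - phiR e a r (v - w')|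
        ≤ 1 * (K * (len (w - w') * (len (w - v) + len (v - w')) ^ (a - 1))) :=
          mul_le_mul hOm1 h1 (abs_nonneg _) zero_le_one
      _ = K * (len (w - w') * (len (w - v) + len (v - w')) ^ (a - 1)) := one_mul _
      _ ≤ K * (len (w - w') * len (w - v) ^ (a - 1)) :=
          mul_le_mul_of_nonneg_left (mul_le_mul_of_nonneg_left h3 hl) hK
  -- first term
  have hB : |(min 1 (jb w / jb v) ^ 4 - min 1 (jb w' / jb v) ^ 4) * phiR e a r (v - w')| ≤
      4 * (1 + 2 * R) * len (w - w') := by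
    rw [abs_mul]
    have h1 := wcut_Om v w w'
    have h2 : |phiR e a r (v - w')| ≤ jb v * (1 + 2 * R) := by
      refine (phiR_abs ha hr e (v - w')).trans ?_
      have h3 : len (v - w') ≤ jb v * (1 + 2 * R) := by
        have h4 := len_sub_le v w'
        have h5 := len_le_jb v
        have h6 := len_le_jb w'
        nlinarith
      have h4 : (1 : ℝ) ≤ jb v * (1 + 2 * R) := by nlinarith
      calc len (v - w') ^ a ≤ (jb v * (1 + 2 * R)) ^ a :=
            Real.rpow_le_rpow (len_nonneg _) h3 ha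
        _ ≤ (jb v * (1 + 2 * R)) ^ (1 : ℝ) := Real.rpow_le_rpow_of_exponent_le h4 ha1.le
        _ = jb v * (1 + 2 * R) := Real.rpow_one _
    calc |min 1 (jb w / jb v) ^ 4 - min 1 (jb w' / jb v) ^ 4| * |phiR e a r (v - w')|
        ≤ 4 * (len (w - w') / jb v) * (jb v * (1 + 2 * R)) :=
          mul_le_mul h1 h2 (abs_nonneg _) (by positivity)
      _ = 4 * (1 + 2 * R) * len (w - w') := by
          field_simp
  have e1 : PhR e a r v w - PhR e a r v w' =
      (min 1 (jb w / jb v) ^ 4 - min 1 (jb w' / jb v) ^ 4) * phiR e a r (v - w') +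
        min 1 (jb w / jb v) ^ 4 * (phiR e a r (v - w) - phiR e a r (v - w')) := by
    unfold PhR
    ring
  rw [e1]
  refine (abs_add_le _ _).trans ?_
  have hX : 0 ≤ len (w - w') * len (w - v) ^ (a - 1) := mul_nonneg hl hq
  have h7 : 0 ≤ 4 * (1 + 2 * R) * (len (w - w') * len (w - v) ^ (a - 1)) := by positivity
  have h8 : 0 ≤ K * len (w - w') := mul_nonneg hK hl
  nlinarith

theorem PhR_cut (ha : 0 ≤ a) (ha1 : a < 1) {R : ℝ} (hR : 1 ≤ R) : ∃ A : ℝ, 0 ≤ A ∧
    ∀ r : ℝ, 0 < r → r ≤ 1 → ∀ (e : Fin d) (v : Vec d), CuspBT 1 a v A fun w => chi R w * PhR e a r v w := by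
  obtain ⟨K, hK, hinc⟩ := wcut_inc (d := d) ha ha1 hR
  have hR0 : 0 < R := by linarith
  have hB0 : 0 ≤ 2 * (2 * R) ^ a := by positivity
  refine ⟨2 * (2 * R) ^ a + K, by positivity, fun r hr _ e v => ?_⟩
  have hbd : ∀ w : Vec d, jb w ≤ 2 * R → |PhR e a r v w| ≤ 2 * (2 * R) ^ a := by
    intro w hw
    refine (PhR_abs ha ha1 hr e v w).trans ?_
    exact mul_le_mul_of_nonneg_left (Real.rpow_le_rpow (jb_pos w).le hw ha) (by norm_num)
  have hlip : ∀ w w' : Vec d, |chi R w - chi R w'| ≤ len (w - w') := by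
    intro w w'
    have h := chi_holder hR (a := 1) one_pos le_rfl w w'
    rwa [Real.rpow_one] at h
  refine ⟨?_, ?_, ?_⟩
  · have h1 : Continuous fun w : Vec d => ((v, w) : Vec d × Vec d) := by fun_prop
    have h3 : Continuous fun w : Vec d => PhR e a r v w := by
      have h2 := (PhR_PGW ha ha1 hr e).1.comp h1
      simpa only [Function.comp_def] using h2
    exact (chi_cont R).mul h3
  · intro w
    rcases le_total (2 * R) (jb w) with h | h
    · simp only [chi_eq_zero hR h, zero_mul, abs_zero]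
      positivity
    · simp only [abs_mul, abs_of_nonneg (chi_nonneg R w)]
      refine (mul_le_of_le_one_left (abs_nonneg _) (chi_le_one R w)).trans ?_
      linarith [hbd w h]
  · intro w w' hwv
    have hl := len_nonneg (w - w')
    have hq : 0 ≤ len (w - v) ^ (a - 1) := Real.rpow_nonneg (len_nonneg _) _
    have hcmp : 2 * (2 * R) ^ a * len (w - w') ≤
        (2 * (2 * R) ^ a + K) * (len (w - w') ^ (1 : ℝ) * (1 + len (w - v) ^ (a - 1))) := by
      rw [Real.rpow_one]
      have h1 : 0 ≤ 2 * (2 * R) ^ a * (len (w - w') * len (w - v) ^ (a - 1)) :=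
        mul_nonneg hB0 (mul_nonneg hl hq)
      have h2 : 0 ≤ K * (len (w - w') * (1 + len (w - v) ^ (a - 1))) :=
        mul_nonneg hK (mul_nonneg hl (by linarith))
      nlinarith
    rcases le_total (2 * R) (jb w) with h | h
    · rcases le_total (2 * R) (jb w') with h' | h'
      · simp only [chi_eq_zero hR h, chi_eq_zero hR h', zero_mul, sub_self, abs_zero]
        exact le_trans (mul_nonneg hB0 hl) hcmp
      · refine le_trans ?_ hcmp
        have h1 := hlip w w'
        simp only [chi_eq_zero hR h, zero_mul, zero_sub, abs_neg, abs_mul] at h1 ⊢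
        calc |chi R w'| * |PhR e a r v w'| ≤ len (w - w') * (2 * (2 * R) ^ a) :=
              mul_le_mul h1 (hbd w' h') (abs_nonneg _) hl
          _ = 2 * (2 * R) ^ a * len (w - w') := mul_comm _ _
    · rcases le_total (2 * R) (jb w') with h' | h'
      · refine le_trans ?_ hcmp
        have h1 := hlip w w'
        simp only [chi_eq_zero hR h', zero_mul, sub_zero, abs_mul] at h1 ⊢
        calc |chi R w| * |PhR e a r v w| ≤ len (w - w') * (2 * (2 * R) ^ a) :=
              mul_le_mul h1 (hbd w h) (abs_nonneg _) hl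
          _ = 2 * (2 * R) ^ a * len (w - w') := mul_comm _ _
      · have e1 : chi R w * PhR e a r v w - chi R w' * PhR e a r v w' =
            (chi R w - chi R w') * PhR e a r v w + chi R w' * (PhR e a r v w - PhR e a r v w') := by
          ring
        have h1 : |(chi R w - chi R w') * PhR e a r v w| ≤ len (w - w') * (2 * (2 * R) ^ a) := by
          rw [abs_mul]
          exact mul_le_mul (hlip w w') (hbd w h) (abs_nonneg _) hl
        have h2 : |chi R w' * (PhR e a r v w - PhR e a r v w')| ≤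
            K * (len (w - w') * (1 + len (w - v) ^ (a - 1))) := by
          rw [abs_mul, abs_of_nonneg (chi_nonneg R w')]
          exact (mul_le_of_le_one_left (abs_nonneg _) (chi_le_one R w')).trans
            (hinc r hr e v w w' hwv h')
        show |chi R w * PhR e a r v w - chi R w' * PhR e a r v w'| ≤ _
        rw [e1, Real.rpow_one]
        refine (abs_add_le _ _).trans ?_
        have h3 : 0 ≤ 2 * (2 * R) ^ a * (len (w - w') * len (w - v) ^ (a - 1)) :=
          mul_nonneg hB0 (mul_nonneg hl hq)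
        nlinarith

end Pool.Agent.H15.G1
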