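import Pool.Agent.H15.G1.W.Bas

/-!
# Module W/Osc: oscillation in the first variable

`Om_v = min(1,⟨w⟩/⟨v⟩)^4`. If `|u-v| ≥ |v-w|/2`: both values by `PhR_abs` and `min(1,|u-v|/|v-w|) ≥ 1/2`. Otherwise `|u-w|` and `|v-w|` are comparable (factor 2): `Om_v |φ(u-w)-φ(v-w)| ≤ K Om_v |u-v| |v-w|^(a-1) ≤ 2K ⟨w⟩^a |u-v|/|v-w|` (`phiR_inc`, `Om_v|v-w|^a ≤ 2⟨w⟩^a`), and
`|Om_u-Om_v| |φ(u-w)| ≤ K min(1,|u-v|/⟨v⟩) max(Om_u,Om_v) |u-w|^a` if `|u-v| ≤ ⟨v⟩/2` (then `⟨u⟩,⟨v⟩` comparable, `|⟨u⟩-⟨v⟩| ≤ |u-v|`), else `min(1,|u-v|/⟨v⟩) ≥ 1/2` and `PhR_abs`.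
-/

set_option autoImplicit false

open MeasureTheory Set Filter Topology Pool.Agent.H25.Kin Pool.Agent.H82.BK Pool.Agent.H82.CM
open Pool.Agent.H48.PL Pool.Agent.H48.PI Pool.Agent.H48.PW

namespace Pool.Agent.H15.G1

variable {d : ℕ} {s a m r : ℝ}

private lemma wosc_mu (v w : Vec d) : 0 ≤ min 1 (jb w / jb v) :=
  le_min zero_le_one (div_nonneg (jb_pos w).le (jb_pos v).le)

private lemma wosc_mu_rpow {r : ℝ} (hr0 : 0 ≤ r) (hr : r ≤ 1) (v w : Vec d) :
    min 1 (jb w / jb v) ^ 4 * len (v - w) ^ r ≤ 2 * jb w ^ r := by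
  have hv := jb_pos v
  have hw := jb_pos w
  have hV : len (v - w) ≤ jb v + jb w := by
    linarith [len_sub_le v w, len_le_jb v, len_le_jb w]
  have hl := len_nonneg (v - w)
  have hmu0 := wosc_mu v w
  have h2r : (2 : ℝ) ^ r ≤ 2 := by
    have := Real.rpow_le_rpow_of_exponent_le (by norm_num : (1 : ℝ) ≤ 2) hr
    rwa [Real.rpow_one] at this
  have key : min 1 (jb w / jb v) ^ 4 * len (v - w) ^ r ≤ 2 ^ r * jb w ^ r := by
    rcases le_total (jb v) (jb w) with h | h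
    · have h1 : min 1 (jb w / jb v) ^ 4 ≤ 1 := pow_le_one₀ hmu0 (min_le_left _ _)
      have h2 : len (v - w) ^ r ≤ 2 ^ r * jb w ^ r := by
        rw [← Real.mul_rpow (by norm_num) hw.le]
        exact Real.rpow_le_rpow hl (by linarith) hr0
      calc min 1 (jb w / jb v) ^ 4 * len (v - w) ^ r ≤ 1 * (2 ^ r * jb w ^ r) :=
            mul_le_mul h1 h2 (Real.rpow_nonneg hl _) zero_le_one
        _ = 2 ^ r * jb w ^ r := one_mul _
    · have hle : jb w / jb v ≤ 1 := (div_le_one hv).2 h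
      have hq0 : 0 < jb w / jb v := div_pos hw hv
      rw [min_eq_right hle]
      have h1 : (jb w / jb v) ^ 4 ≤ (jb w / jb v) ^ r := by
        have h4 : (jb w / jb v) ^ 4 = (jb w / jb v) ^ (4 : ℝ) := by
          rw [← Real.rpow_natCast]; norm_num
        rw [h4]
        exact Real.rpow_le_rpow_of_exponent_ge hq0 hle (by linarith)
      have h2 : len (v - w) ^ r ≤ 2 ^ r * jb v ^ r := by
        rw [← Real.mul_rpow (by norm_num) hv.le]
        exact Real.rpow_le_rpow hl (by linarith) hr0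
      have h3 : (jb w / jb v) ^ r * jb v ^ r = jb w ^ r := by
        rw [← Real.mul_rpow hq0.le hv.le, div_mul_cancel₀ _ hv.ne']
      calc (jb w / jb v) ^ 4 * len (v - w) ^ r ≤ (jb w / jb v) ^ r * (2 ^ r * jb v ^ r) :=
            mul_le_mul h1 h2 (Real.rpow_nonneg hl _) (Real.rpow_nonneg hq0.le _)
        _ = 2 ^ r * ((jb w / jb v) ^ r * jb v ^ r) := by ring
        _ = 2 ^ r * jb w ^ r := by rw [h3]
  exact key.trans (mul_le_mul_of_nonneg_right h2r (Real.rpow_nonneg hw.le _))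

/-- `|min(1,W/x) - min(1,W/y)| ≤ (|x-y|/y) min(1,W/x)` -/
private lemma wosc_min {W x y : ℝ} (hW : 0 < W) (hx : 0 < x) (hy : 0 < y) :
    |min 1 (W / x) - min 1 (W / y)| ≤ |x - y| / y * min 1 (W / x) := by
  have hmx : 0 ≤ min 1 (W / x) := le_min zero_le_one (div_pos hW hx).le
  have e : x / y * min 1 (W / x) = min (x / y) (W / y) := by
    rw [mul_min_of_nonneg _ _ (div_pos hx hy).le, mul_one]
    congr 1
    field_simp
  rcases le_total x y with h | h
  · have h1 : x / y * min 1 (W / x) ≤ min 1 (W / y) := by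
      rw [e]; exact min_le_min ((div_le_one hy).2 h) le_rfl
    have h2 : min 1 (W / y) ≤ min 1 (W / x) :=
      min_le_min le_rfl (div_le_div_of_nonneg_left hW.le hx h)
    rw [abs_of_nonneg (by linarith), abs_of_nonpos (by linarith : x - y ≤ 0)]
    have h3 : -(x - y) / y = 1 - x / y := by field_simp; ring
    rw [h3]
    nlinarith
  · have h1 : min 1 (W / y) ≤ x / y * min 1 (W / x) := by
      rw [e]; exact min_le_min ((one_le_div hy).2 h) le_rfl
    have h2 : min 1 (W / x) ≤ min 1 (W / y) :=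
      min_le_min le_rfl (div_le_div_of_nonneg_left hW.le hy h)
    rw [abs_of_nonpos (by linarith), abs_of_nonneg (by linarith : 0 ≤ x - y)]
    have h3 : (x - y) / y = x / y - 1 := by field_simp
    rw [h3]
    nlinarith

private lemma wosc_pow {x y t : ℝ} (hx : 0 ≤ x) (hy : 0 ≤ y) (ht : t ≤ 1 / 2)
    (h : |x - y| ≤ t * x) : |x ^ 4 - y ^ 4| ≤ 9 * t * x ^ 4 := by
  have h1 : y ≤ 3 / 2 * x := by
    have := (abs_le.1 h).1
    nlinarith
  have e : x ^ 4 - y ^ 4 = (x - y) * (x ^ 3 + x ^ 2 * y + x * y ^ 2 + y ^ 3) := by ring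
  have h2 : y ^ 2 ≤ (3 / 2 * x) ^ 2 := pow_le_pow_left₀ hy h1 2
  have h3 : y ^ 3 ≤ (3 / 2 * x) ^ 3 := pow_le_pow_left₀ hy h1 3
  have h4 : x ^ 3 + x ^ 2 * y + x * y ^ 2 + y ^ 3 ≤ 9 * x ^ 3 := by
    have a1 : x ^ 2 * y ≤ x ^ 2 * (3 / 2 * x) := mul_le_mul_of_nonneg_left h1 (by positivity)
    have a2 : x * y ^ 2 ≤ x * (3 / 2 * x) ^ 2 := mul_le_mul_of_nonneg_left h2 hx
    have a3 : 0 ≤ x ^ 3 := by positivity
    nlinarith
  have h5 : 0 ≤ x ^ 3 + x ^ 2 * y + x * y ^ 2 + y ^ 3 := by positivity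
  rw [e, abs_mul, abs_of_nonneg h5]
  calc |x - y| * (x ^ 3 + x ^ 2 * y + x * y ^ 2 + y ^ 3) ≤ (t * x) * (9 * x ^ 3) :=
        mul_le_mul h h4 h5 ((abs_nonneg _).trans h)
    _ = 9 * t * x ^ 4 := by ring

theorem PhR_osc (ha : 0 ≤ a) (ha1 : a < 1) : ∃ K : ℝ, 0 ≤ K ∧ ∀ r : ℝ, 0 < r → r ≤ 1 →
    ∀ (e : Fin d) (u v w : Vec d), v ≠ w →
      |PhR e a r u w - PhR e a r v w| ≤
        K * jb w ^ a * (min 1 (len (u - v) / len (v - w)) + min 1 (len (u - v) / jb v)) := by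
  obtain ⟨K0, hK0, hinc⟩ := phiR_inc (d := d) ha ha1
  refine ⟨2 * K0 + 18, by positivity, fun r hr _ e u v w hvw => ?_⟩
  have hX : 0 < jb w ^ a := Real.rpow_pos_of_pos (jb_pos w) a
  have hR : 0 < len (v - w) := len_pos (sub_ne_zero.2 hvw)
  have hv := jb_pos v
  have hu := jb_pos u
  have hw := jb_pos w
  have hd := len_nonneg (u - v)
  have hA := PhR_abs ha ha1 hr e u w
  have hB := PhR_abs ha ha1 hr e v w
  have hAB : |PhR e a r u w - PhR e a r v w| ≤ 4 * jb w ^ a := by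
    have := abs_sub (PhR e a r u w) (PhR e a r v w)
    linarith
  have hT1 : 0 ≤ min 1 (len (u - v) / len (v - w)) := le_min zero_le_one (div_nonneg hd hR.le)
  have hT2 : 0 ≤ min 1 (len (u - v) / jb v) := le_min zero_le_one (div_nonneg hd hv.le)
  by_cases h1 : 1 / 2 ≤ len (u - v) / len (v - w)
  · have h2 : 1 / 2 ≤ min 1 (len (u - v) / len (v - w)) := le_min (by norm_num) h1
    refine hAB.trans ?_
    have h3 : 1 / 2 ≤ min 1 (len (u - v) / len (v - w)) + min 1 (len (u - v) / jb v) := by linarith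
    have h4 : (2 * K0 + 18) * jb w ^ a * (1 / 2) ≤ (2 * K0 + 18) * jb w ^ a *
        (min 1 (len (u - v) / len (v - w)) + min 1 (len (u - v) / jb v)) :=
      mul_le_mul_of_nonneg_left h3 (by positivity)
    refine le_trans ?_ h4
    nlinarith [mul_nonneg hK0 hX.le]
  by_cases h2 : 1 / 2 ≤ len (u - v) / jb v
  · have h2' : 1 / 2 ≤ min 1 (len (u - v) / jb v) := le_min (by norm_num) h2
    refine hAB.trans ?_
    have h3 : 1 / 2 ≤ min 1 (len (u - v) / len (v - w)) + min 1 (len (u - v) / jb v) := by linarith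
    have h4 : (2 * K0 + 18) * jb w ^ a * (1 / 2) ≤ (2 * K0 + 18) * jb w ^ a *
        (min 1 (len (u - v) / len (v - w)) + min 1 (len (u - v) / jb v)) :=
      mul_le_mul_of_nonneg_left h3 (by positivity)
    refine le_trans ?_ h4
    nlinarith [mul_nonneg hK0 hX.le]
  have h1' := not_le.1 h1
  have h2' := not_le.1 h2
  rw [min_eq_right (by linarith : len (u - v) / len (v - w) ≤ 1),
    min_eq_right (by linarith : len (u - v) / jb v ≤ 1)]
  -- decomposition
  have hdec : PhR e a r u w - PhR e a r v w =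
      min 1 (jb w / jb v) ^ 4 * (phiR e a r (u - w) - phiR e a r (v - w)) +
      (min 1 (jb w / jb u) ^ 4 - min 1 (jb w / jb v) ^ 4) * phiR e a r (u - w) := by
    unfold PhR; ring
  have hOv : 0 ≤ min 1 (jb w / jb v) ^ 4 := pow_nonneg (wosc_mu v w) 4
  -- first part
  have hf : |min 1 (jb w / jb v) ^ 4 * (phiR e a r (u - w) - phiR e a r (v - w))| ≤
      2 * K0 * jb w ^ a * (len (u - v) / len (v - w)) := by
    rw [abs_mul, abs_of_nonneg hOv]
    have i1 := hinc r hr e (u - w) (v - w)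
    rw [sub_sub_sub_cancel_right] at i1
    have i2 : (len (u - w) + len (v - w)) ^ (a - 1) ≤ len (v - w) ^ (a - 1) :=
      Real.rpow_le_rpow_of_nonpos hR (by linarith [len_nonneg (u - w)]) (by linarith)
    have i3 : len (v - w) ^ (a - 1) = len (v - w) ^ a / len (v - w) := Real.rpow_sub_one hR.ne' a
    have i4 : |phiR e a r (u - w) - phiR e a r (v - w)| ≤
        K0 * (len (u - v) * (len (v - w) ^ a / len (v - w))) := by
      rw [← i3]
      exact i1.trans (mul_le_mul_of_nonneg_left (mul_le_mul_of_nonneg_left i2 hd) hK0)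
    have i5 := wosc_mu_rpow ha ha1.le v w
    calc min 1 (jb w / jb v) ^ 4 * |phiR e a r (u - w) - phiR e a r (v - w)|
        ≤ min 1 (jb w / jb v) ^ 4 * (K0 * (len (u - v) * (len (v - w) ^ a / len (v - w)))) :=
          mul_le_mul_of_nonneg_left i4 hOv
      _ = K0 * (len (u - v) / len (v - w)) * (min 1 (jb w / jb v) ^ 4 * len (v - w) ^ a) := by ring
      _ ≤ K0 * (len (u - v) / len (v - w)) * (2 * jb w ^ a) :=
          mul_le_mul_of_nonneg_left i5 (mul_nonneg hK0 (div_nonneg hd hR.le))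
      _ = 2 * K0 * jb w ^ a * (len (u - v) / len (v - w)) := by ring
  -- second part
  have hs : |(min 1 (jb w / jb u) ^ 4 - min 1 (jb w / jb v) ^ 4) * phiR e a r (u - w)| ≤
      18 * jb w ^ a * (len (u - v) / jb v) := by
    rw [abs_mul]
    have i1 := wosc_min hw hu hv
    have i2 : |jb u - jb v| / jb v ≤ len (u - v) / jb v := div_le_div_of_nonneg_right (jb_lip u v) hv.le
    have i3 : |min 1 (jb w / jb u) - min 1 (jb w / jb v)| ≤
        len (u - v) / jb v * min 1 (jb w / jb u) :=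
      i1.trans (mul_le_mul_of_nonneg_right i2 (wosc_mu u w))
    have i4 := wosc_pow (wosc_mu u w) (wosc_mu v w) h2'.le i3
    have i5 := wosc_mu_rpow ha ha1.le u w
    have i6 := phiR_abs ha hr e (u - w)
    have hq : 0 ≤ len (u - v) / jb v := div_nonneg hd hv.le
    calc |min 1 (jb w / jb u) ^ 4 - min 1 (jb w / jb v) ^ 4| * |phiR e a r (u - w)|
        ≤ (9 * (len (u - v) / jb v) * min 1 (jb w / jb u) ^ 4) * len (u - w) ^ a :=
          mul_le_mul i4 i6 (abs_nonneg _)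
            (mul_nonneg (mul_nonneg (by norm_num) hq) (pow_nonneg (wosc_mu u w) 4))
      _ = 9 * (len (u - v) / jb v) * (min 1 (jb w / jb u) ^ 4 * len (u - w) ^ a) := by ring
      _ ≤ 9 * (len (u - v) / jb v) * (2 * jb w ^ a) :=
          mul_le_mul_of_nonneg_left i5 (mul_nonneg (by norm_num) hq)
      _ = 18 * jb w ^ a * (len (u - v) / jb v) := by ring
  rw [hdec]
  refine (abs_add_le _ _).trans ((add_le_add hf hs).trans ?_)
  have hq1 : 0 ≤ len (u - v) / len (v - w) := div_nonneg hd hR.le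
  have hq2 : 0 ≤ len (u - v) / jb v := div_nonneg hd hv.le
  have j1 : 0 ≤ 18 * jb w ^ a * (len (u - v) / len (v - w)) := by positivity
  have j2 : 0 ≤ 2 * K0 * jb w ^ a * (len (u - v) / jb v) := by positivity
  have e1 : (2 * K0 + 18) * jb w ^ a * (len (u - v) / len (v - w) + len (u - v) / jb v) =
      2 * K0 * jb w ^ a * (len (u - v) / len (v - w)) + 18 * jb w ^ a * (len (u - v) / jb v) +
      18 * jb w ^ a * (len (u - v) / len (v - w)) + 2 * K0 * jb w ^ a * (len (u - v) / jb v) := by ring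
  rw [e1]
  linarith

end Pool.Agent.H15.G1
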