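import Pool.Agent.H15.G1.Defs
import Pool.Agent.H48.PW.PhiD

/-!
# Module W/Phir: the function `phiR`

`phiR y = min(1,|y|/r) y_e |y|^(a-1)`. `phiR_inc`: `φ` is homogeneous of degree `a` and Lipschitz on the unit sphere: for `|z| ≤ |y|`, `|φ(y)-φ(z)| ≤ K |y-z| |y|^(a-1)` if `|y-z| ≥ |y|/2` (both `≤ |y|^a`), and by the mean value
theorem or directly (`y_e|y|^(a-1) - z_e|z|^(a-1)`, `||y|^(a-1)-|z|^(a-1)| ≤ 4|y|^(a-2)|y-z|` for `|z| ≥ |y|/2`) otherwise. The factor: `|min(1,|y|/r)-min(1,|z|/r)| |z|^a ≤ |y-z| |y|^(a-1)`-type: it vanishes for `|z| ≥ r`, and for `|z| < r`,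
`|z| ≤ |y|`: `≤ min(1,|y-z|/r) |z|^a ≤ |y-z| |z|^a/r`; if `|y| ≤ 2r` this is `≤ 2|y-z||y|^(a-1)` as `|z|^a ≤ |y|^a`, and if `|y| > 2r` then `|y-z| ≥ |y|/2` (trivial case). `0^0 = 1` at `a = 0`.
-/

set_option autoImplicit false

open MeasureTheory Set Filter Topology Pool.Agent.H25.Kin Pool.Agent.H82.BK Pool.Agent.H82.CM
open Pool.Agent.H48.PL Pool.Agent.H48.PI Pool.Agent.H48.PW

namespace Pool.Agent.H15.G1

variable {d : ℕ} {s a m r : ℝ}

/-- `|u^(-p) - 1| ≤ 2 |u - 1|` for `u ≥ 1/2` -/
private lemma phir_un1 {p u : ℝ} (hp0 : 0 ≤ p) (hp1 : p ≤ 1) (hu : 1 / 2 ≤ u) :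
    |u ^ (-p) - 1| ≤ 2 * |u - 1| := by
  have h0 : 0 < u := by linarith
  have h1 : |u ^ p - 1| ≤ |u - 1| := by
    rcases le_total u 1 with h | h
    · have h1 : u ≤ u ^ p := by
        calc u = u ^ (1 : ℝ) := (Real.rpow_one u).symm
          _ ≤ u ^ p := Real.rpow_le_rpow_of_exponent_ge h0 h hp1
      have h2 : u ^ p ≤ 1 := Real.rpow_le_one h0.le h hp0
      rw [abs_of_nonpos (by linarith), abs_of_nonpos (by linarith)]
      linarith
    · have h1 : u ^ p ≤ u := by
        calc u ^ p ≤ u ^ (1 : ℝ) := Real.rpow_le_rpow_of_exponent_le h hp1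
          _ = u := Real.rpow_one u
      have h2 : 1 ≤ u ^ p := Real.one_le_rpow h hp0
      rw [abs_of_nonneg (by linarith), abs_of_nonneg (by linarith)]
      linarith
  have h2 : 1 / 2 ≤ u ^ p := by
    rcases le_total u 1 with h | h
    · calc (1 / 2 : ℝ) ≤ u := hu
        _ = u ^ (1 : ℝ) := (Real.rpow_one u).symm
        _ ≤ u ^ p := Real.rpow_le_rpow_of_exponent_ge h0 h hp1
    · have := Real.one_le_rpow h hp0
      linarith
  have h3 : u ^ (-p) = (u ^ p)⁻¹ := Real.rpow_neg h0.le p
  have h4 : u ^ (-p) - 1 = -(u ^ p - 1) * (u ^ p)⁻¹ := by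
    rw [h3]
    field_simp
    ring
  rw [h4, abs_mul, abs_neg, abs_of_pos (inv_pos.2 (by linarith : (0 : ℝ) < u ^ p))]
  have h5 : (u ^ p)⁻¹ ≤ 2 := by
    rw [inv_le_comm₀ (by linarith) (by norm_num)]
    linarith
  calc |u ^ p - 1| * (u ^ p)⁻¹ ≤ |u - 1| * 2 :=
        mul_le_mul h1 h5 (inv_nonneg.2 (by linarith)) (abs_nonneg _)
    _ = 2 * |u - 1| := by ring

/-- differences of `x^(a-1)` -/
private lemma phir_pw (ha : 0 ≤ a) (ha1 : a < 1) {Y Z D : ℝ} (hY : 0 < Y) (hZ : Y / 2 ≤ Z)
    (hD : |Y - Z| ≤ D) : |Y ^ (a - 1) - Z ^ (a - 1)| * Y ≤ 2 * (D * Y ^ (a - 1)) := by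
  have hZ0 : 0 < Z := by linarith
  have hu : 1 / 2 ≤ Z / Y := by
    rw [le_div_iff₀ hY]
    linarith
  have h1 := phir_un1 (p := 1 - a) (by linarith) (by linarith) hu
  have h2 : Z ^ (a - 1) = (Z / Y) ^ (a - 1) * Y ^ (a - 1) := by
    rw [← Real.mul_rpow (by positivity) hY.le, div_mul_cancel₀ _ hY.ne']
  have h3 : Y ^ (a - 1) - Z ^ (a - 1) = -((Z / Y) ^ (-(1 - a)) - 1) * Y ^ (a - 1) := by
    rw [h2, neg_sub 1 a]
    ring
  have hp : 0 < Y ^ (a - 1) := Real.rpow_pos_of_pos hY _
  have h4 : |Z / Y - 1| * Y = |Y - Z| := by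
    have : Z / Y - 1 = (Z - Y) / Y := by field_simp
    rw [this, abs_div, abs_of_pos hY, div_mul_cancel₀ _ hY.ne', abs_sub_comm]
  rw [h3, abs_mul, abs_neg, abs_of_pos hp]
  calc |(Z / Y) ^ (-(1 - a)) - 1| * Y ^ (a - 1) * Y ≤ 2 * |Z / Y - 1| * Y ^ (a - 1) * Y := by
        gcongr
    _ = 2 * ((|Z / Y - 1| * Y) * Y ^ (a - 1)) := by ring
    _ ≤ 2 * (D * Y ^ (a - 1)) := by
        rw [h4]
        gcongr

private lemma phir_phi_abs (ha : 0 ≤ a) (e : Fin d) (y : Vec d) : |phi e a y| ≤ len y ^ a := by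
  unfold phi
  rw [abs_mul, abs_of_nonneg (Real.rpow_nonneg (len_nonneg y) (a - 1))]
  rcases (len_nonneg y).eq_or_lt with h | h
  · have h1 := abs_coord_le y e
    rw [← h] at h1
    have h2 : |y e| = 0 := le_antisymm h1 (abs_nonneg _)
    rw [h2, zero_mul]
    exact Real.rpow_nonneg (len_nonneg y) a
  · calc |y e| * len y ^ (a - 1) ≤ len y * len y ^ (a - 1) :=
          mul_le_mul_of_nonneg_right (abs_coord_le y e) (Real.rpow_nonneg h.le _)
      _ = len y ^ a := by
        rw [Real.rpow_sub_one h.ne']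
        field_simp

private lemma phir_min_nn (hr : 0 < r) (y : Vec d) : 0 ≤ min 1 (len y / r) :=
  le_min zero_le_one (div_nonneg (len_nonneg y) hr.le)

lemma phiR_abs (ha : 0 ≤ a) (hr : 0 < r) (e : Fin d) (y : Vec d) : |phiR e a r y| ≤ len y ^ a := by
  unfold phiR
  rw [abs_mul, abs_of_nonneg (phir_min_nn hr y)]
  calc min 1 (len y / r) * |phi e a y| ≤ 1 * |phi e a y| :=
        mul_le_mul_of_nonneg_right (min_le_left _ _) (abs_nonneg _)
    _ ≤ len y ^ a := by
      rw [one_mul]
      exact phir_phi_abs ha e y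

private lemma phir_len_sub (y z : Vec d) : |len y - len z| ≤ len (y - z) := by
  have h1 := len_le_add_sub y z
  have h2 := len_le_add_sub z y
  have h3 : len (z - y) = len (y - z) := by
    rw [← neg_sub y z, len_neg]
  rw [abs_le]
  constructor <;> linarith

private lemma phir_core (ha : 0 ≤ a) (ha1 : a < 1) (hr : 0 < r) (e : Fin d) (y z : Vec d)
    (hzy : len z ≤ len y) (hy : 0 < len y) :
    |phiR e a r y - phiR e a r z| ≤ 5 * (len (y - z) * len y ^ (a - 1)) := by
  have hz := len_nonneg z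
  have hD := len_nonneg (y - z)
  have hd := phir_len_sub y z
  have hp : 0 < len y ^ (a - 1) := Real.rpow_pos_of_pos hy _
  have hya : len y ^ a = len y * len y ^ (a - 1) := by
    rw [Real.rpow_sub_one hy.ne']
    field_simp
  have hza : len z ^ a ≤ len y ^ a := Real.rpow_le_rpow hz hzy ha
  rcases le_or_gt (len y / 2) (len (y - z)) with hc | hc
  · have h1 := phiR_abs ha hr e y
    have h2 := phiR_abs ha hr e z
    have h3 : len y * len y ^ (a - 1) ≤ 2 * len (y - z) * len y ^ (a - 1) :=
      mul_le_mul_of_nonneg_right (by linarith) hp.le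
    have h4 : 0 ≤ len (y - z) * len y ^ (a - 1) := mul_nonneg hD hp.le
    calc |phiR e a r y - phiR e a r z| ≤ |phiR e a r y| + |phiR e a r z| := abs_sub _ _
      _ ≤ 5 * (len (y - z) * len y ^ (a - 1)) := by linarith
  · have hZ : len y / 2 ≤ len z := by
      have := (abs_le.1 hd).2
      linarith
    have hz0 : 0 < len z := by linarith
    have e1 : phiR e a r y - phiR e a r z =
        min 1 (len y / r) * (phi e a y - phi e a z) +
          (min 1 (len y / r) - min 1 (len z / r)) * phi e a z := by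
      unfold phiR
      ring
    have e2 : phi e a y - phi e a z =
        (y e - z e) * len y ^ (a - 1) + z e * (len y ^ (a - 1) - len z ^ (a - 1)) := by
      unfold phi
      ring
    have c1 : |phi e a y - phi e a z| ≤ 3 * (len (y - z) * len y ^ (a - 1)) := by
      rw [e2]
      have b1 : |(y e - z e) * len y ^ (a - 1)| ≤ len (y - z) * len y ^ (a - 1) := by
        rw [abs_mul, abs_of_pos hp]
        refine mul_le_mul_of_nonneg_right ?_ hp.le
        have := abs_coord_le (y - z) e
        rwa [Pi.sub_apply] at this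
      have b2 : |z e * (len y ^ (a - 1) - len z ^ (a - 1))| ≤ 2 * (len (y - z) * len y ^ (a - 1)) := by
        rw [abs_mul, mul_comm]
        refine le_trans ?_ (phir_pw ha ha1 hy hZ hd)
        exact mul_le_mul_of_nonneg_left ((abs_coord_le z e).trans hzy) (abs_nonneg _)
      refine (abs_add_le _ _).trans ?_
      linarith
    have c2 : |(min 1 (len y / r) - min 1 (len z / r)) * phi e a z| ≤
        2 * (len (y - z) * len y ^ (a - 1)) := by
      rcases le_or_gt r (len z) with hrz | hrz
      · have h1 : min 1 (len y / r) = 1 := min_eq_left (by rw [le_div_iff₀ hr]; linarith)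
        have h2 : min 1 (len z / r) = 1 := min_eq_left (by rw [le_div_iff₀ hr]; linarith)
        rw [h1, h2, sub_self, zero_mul, abs_zero]
        positivity
      · rw [abs_mul]
        have h1 : |min 1 (len y / r) - min 1 (len z / r)| ≤ len (y - z) / r := by
          calc |min 1 (len y / r) - min 1 (len z / r)| ≤ |len y / r - len z / r| := by
                have := abs_min_sub_min_le_max 1 (len y / r) 1 (len z / r)
                rw [sub_self, abs_zero] at this
                exact this.trans (max_le (abs_nonneg _) le_rfl)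
            _ = |len y - len z| / r := by rw [← sub_div, abs_div, abs_of_pos hr]
            _ ≤ len (y - z) / r := div_le_div_of_nonneg_right hd hr.le
        have h2 : |phi e a z| ≤ len y * len y ^ (a - 1) := by
          rw [← hya]
          exact (phir_phi_abs ha e z).trans hza
        have h3 : len y / r ≤ 2 := by
          rw [div_le_iff₀ hr]
          linarith
        calc |min 1 (len y / r) - min 1 (len z / r)| * |phi e a z|
            ≤ len (y - z) / r * (len y * len y ^ (a - 1)) :=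
              mul_le_mul h1 h2 (abs_nonneg _) (div_nonneg hD hr.le)
          _ = (len y / r) * (len (y - z) * len y ^ (a - 1)) := by ring
          _ ≤ 2 * (len (y - z) * len y ^ (a - 1)) :=
              mul_le_mul_of_nonneg_right h3 (mul_nonneg hD hp.le)
    have c3 : |min 1 (len y / r) * (phi e a y - phi e a z)| ≤ 3 * (len (y - z) * len y ^ (a - 1)) := by
      rw [abs_mul, abs_of_nonneg (phir_min_nn hr y)]
      calc min 1 (len y / r) * |phi e a y - phi e a z| ≤ 1 * |phi e a y - phi e a z| :=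
            mul_le_mul_of_nonneg_right (min_le_left _ _) (abs_nonneg _)
        _ ≤ 3 * (len (y - z) * len y ^ (a - 1)) := by
          rw [one_mul]
          exact c1
    rw [e1]
    refine (abs_add_le _ _).trans ?_
    linarith

private lemma phir_dbl (ha : 0 ≤ a) (ha1 : a < 1) {Y Z : ℝ} (hY : 0 < Y) (hZ : 0 ≤ Z) (hZY : Z ≤ Y) :
    Y ^ (a - 1) ≤ 2 * (Y + Z) ^ (a - 1) := by
  have h1 : (2 * Y) ^ (a - 1) ≤ (Y + Z) ^ (a - 1) :=
    Real.rpow_le_rpow_of_nonpos (by linarith) (by linarith) (by linarith)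
  have h2 : (2 * Y) ^ (a - 1) = 2 ^ (a - 1) * Y ^ (a - 1) := Real.mul_rpow (by norm_num) hY.le
  have h3 : (1 : ℝ) / 2 ≤ 2 ^ (a - 1) := by
    calc (1 : ℝ) / 2 = 2 ^ (-1 : ℝ) := by rw [Real.rpow_neg_one]; norm_num
      _ ≤ 2 ^ (a - 1) := Real.rpow_le_rpow_of_exponent_le (by norm_num) (by linarith)
  have h5 : 0 < Y ^ (a - 1) := Real.rpow_pos_of_pos hY _
  have h6 : 1 / 2 * Y ^ (a - 1) ≤ 2 ^ (a - 1) * Y ^ (a - 1) := mul_le_mul_of_nonneg_right h3 h5.le
  linarith

theorem phiR_inc (ha : 0 ≤ a) (ha1 : a < 1) : ∃ K : ℝ, 0 ≤ K ∧ ∀ r : ℝ, 0 < r → ∀ (e : Fin d) (y z : Vec d),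
    |phiR e a r y - phiR e a r z| ≤ K * (len (y - z) * (len y + len z) ^ (a - 1)) := by
  have key : ∀ r : ℝ, 0 < r → ∀ (e : Fin d) (y z : Vec d), len z ≤ len y →
      |phiR e a r y - phiR e a r z| ≤ 10 * (len (y - z) * (len y + len z) ^ (a - 1)) := by
    intro r hr e y z hzy
    have hz := len_nonneg z
    have hD := len_nonneg (y - z)
    rcases (len_nonneg y).eq_or_lt with h | h
    · have hy0 : ∀ w : Vec d, len w ≤ 0 → w = 0 := by
        intro w hw
        funext i
        have h1 := abs_coord_le w i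
        have h2 : |w i| = 0 := le_antisymm (h1.trans hw) (abs_nonneg _)
        exact abs_eq_zero.1 h2
      have e1 : y = z := (hy0 y h.symm.le).trans (hy0 z (hzy.trans h.symm.le)).symm
      rw [e1, sub_self, abs_zero]
      have := len_nonneg (z - z)
      have := Real.rpow_nonneg (add_nonneg hz hz) (a - 1)
      positivity
    · have h1 := phir_core ha ha1 hr e y z hzy h
      have h2 := phir_dbl ha ha1 h hz hzy
      have h3 : len (y - z) * len y ^ (a - 1) ≤ len (y - z) * (2 * (len y + len z) ^ (a - 1)) :=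
        mul_le_mul_of_nonneg_left h2 hD
      linarith
  refine ⟨10, by norm_num, ?_⟩
  intro r hr e y z
  rcases le_total (len z) (len y) with h | h
  · exact key r hr e y z h
  · have h1 := key r hr e z y h
    have h2 : len (z - y) = len (y - z) := by
      rw [← neg_sub y z, len_neg]
    rw [abs_sub_comm, h2, add_comm (len z)] at h1
    exact h1

lemma phiR_cont (ha : 0 ≤ a) (ha1 : a < 1) (hr : 0 < r) (e : Fin d) : Continuous (phiR e a r : Vec d → ℝ) := by
  obtain ⟨K, hK, h⟩ := phiR_inc (d := d) ha ha1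
  rw [continuous_iff_continuousAt]
  intro y
  unfold ContinuousAt
  rw [tendsto_iff_norm_sub_tendsto_zero]
  rcases (len_nonneg y).eq_or_lt with h0 | h0
  · have hy : phiR e a r y = 0 := by
      unfold phiR
      rw [← h0, zero_div, min_eq_right zero_le_one, zero_mul]
    have h1 : ∀ z : Vec d, |phiR e a r z - phiR e a r y| ≤ len z / r * len z ^ a := by
      intro z
      rw [hy, sub_zero]
      unfold phiR
      rw [abs_mul, abs_of_nonneg (phir_min_nn hr z)]
      exact mul_le_mul (min_le_right _ _) (phir_phi_abs ha e z) (abs_nonneg _)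
        (div_nonneg (len_nonneg z) hr.le)
    have h3 : Tendsto (fun z : Vec d => len z / r * len z ^ a) (𝓝 y) (𝓝 0) := by
      have h4 : Continuous fun z : Vec d => len z / r * len z ^ a :=
        (continuous_len.div_const r).mul (continuous_len.rpow_const (fun z => Or.inr ha))
      have h5 := h4.tendsto y
      rwa [← h0, zero_div, zero_mul] at h5
    exact squeeze_zero (fun z => norm_nonneg _) (fun z => by rw [Real.norm_eq_abs]; exact h1 z) h3
  · have h1 : ∀ z : Vec d, |phiR e a r z - phiR e a r y| ≤ K * (len (z - y) * len y ^ (a - 1)) := by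
      intro z
      refine (h r hr e z y).trans (mul_le_mul_of_nonneg_left ?_ hK)
      refine mul_le_mul_of_nonneg_left ?_ (len_nonneg _)
      exact Real.rpow_le_rpow_of_nonpos h0 (by linarith [len_nonneg z]) (by linarith)
    have h3 : Tendsto (fun z : Vec d => K * (len (z - y) * len y ^ (a - 1))) (𝓝 y) (𝓝 0) := by
      have h4 : Continuous fun z : Vec d => K * (len (z - y) * len y ^ (a - 1)) :=
        continuous_const.mul ((continuous_len.comp (continuous_id.sub continuous_const)).mul
          continuous_const)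
      have h5 := h4.tendsto y
      simp only [sub_self, len_zero, zero_mul, mul_zero] at h5
      exact h5
    exact squeeze_zero (fun z => norm_nonneg _) (fun z => by rw [Real.norm_eq_abs]; exact h1 z) h3

end Pool.Agent.H15.G1
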